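import Mathlib

namespace Pool.Agent.H.MP_e13bdd_an

open Set Filter Topology MeasureTheory Real
open Nat (fib fib_pos fib_add_two)
open scoped goldenRatio ENNReal

lemma key (c : ℂ) (C : ℝ) (h : ∀ k, ‖c ^ fib k - (-1) ^ fib (k + 1)‖ ≤ C * (4 / 9) ^ k) :
    False := by
  have lim : ∀ {r d : ℝ}, 0 ≤ r → r < 1 → (∀ᶠ k in atTop, d ≤ C * r ^ k) → d ≤ 0 :=
    fun r0 r1 => ge_of_tendsto (by
      simpa using (tendsto_pow_atTop_nhds_zero_of_lt_one r0 r1).const_mul C)
  obtain c1 | c1 := lt_or_ge ‖c‖ 1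
  · refine (sub_pos.2 c1).not_ge (lim (by norm_num) (by norm_num : (4 / 9 : ℝ) < 1)
      ((eventually_gt_atTop 0).mono fun k k0 => le_trans ?_ (h k)))
    have := norm_sub_norm_le ((-1 : ℂ) ^ fib (k + 1)) (c ^ fib k)
    have := pow_le_of_le_one (norm_nonneg c) c1.le (fib_pos.2 k0).ne'
    simp only [norm_pow, norm_neg, norm_one, one_pow, norm_sub_rev ((-1 : ℂ) ^ _)] at *
    linarith
  have s : ∀ j k, ‖c ^ fib k - (-1) ^ fib (k + 1)‖ ≤ C * (52 / 81) ^ j * (4 / 9) ^ k := by
    intro j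
    induction j with
    | zero => simpa using h
    | succ j ih =>
      intro k
      have e : (c ^ fib k - (-1) ^ fib (k + 1)) * c ^ fib (k + 1) = (c ^ fib (k + 2) -
          (-1) ^ fib (k + 2 + 1)) - (-1) ^ fib (k + 1) * (c ^ fib (k + 1) - (-1) ^ fib (k + 1 + 1)) := by
        rw [fib_add_two (n := k + 1), fib_add_two (n := k)]; ring
      have a := norm_sub_le_of_le (ih (k + 2)) ((norm_mul ((-1 : ℂ) ^ fib (k + 1)) _).trans_le
        (mul_le_mul (show _ ≤ 1 by simp) (ih (k + 1)) (norm_nonneg _) zero_le_one))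
      rw [← e, norm_mul, norm_pow] at a
      exact ((le_mul_of_one_le_right (norm_nonneg _) (one_le_pow₀ c1)).trans a).trans_eq (by ring)
  have := lim (d := 2) (by norm_num) (by norm_num : (52 / 81 : ℝ) < 1)
    (.of_forall fun j => by have := s j 0; norm_num at this; exact this)
  norm_num at this

noncomputable abbrev E := lp (fun _ : ℕ × ℕ => ℂ) 2

lemma inj : Function.Injective fun i : ℕ × ℕ => (i.1, i.2 + 1) := fun i j e => by
  simpa [Prod.ext_iff] using e

noncomputable def B0 : E →ₗ[ℂ] E where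
  toFun a := ⟨fun i => a (i.1, i.2 + 1), memℓp_gen
    (((lp.memℓp a).summable (by simp)).comp_injective inj)⟩
  map_add' _ _ := rfl
  map_smul' _ _ := rfl

noncomputable def B : E →L[ℂ] E := (4 : ℂ) • B0.mkContinuous 1 fun a =>
  lp.norm_le_of_tsum_le (by simp) (by simp) (by
    rw [one_mul, lp.norm_rpow_eq_tsum (by simp)]
    exact tsum_comp_le_tsum_of_inj ((lp.memℓp a).summable (by simp)) (fun _ => by positivity) inj)

lemma B_apply (a : E) (i : ℕ × ℕ) : B a i = 4 * a (i.1, i.2 + 1) := rfl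

def K : Submodule ℂ E where
  carrier := {a | ∀ k n, a (k + 1, n) = (9 / 4) ^ k *
    (4 ^ fib k * a (0, n + fib k) - (-1) ^ fib (k + 1) * a (0, n))}
  zero_mem' k n := by simp
  add_mem' ha hb k n := by simp only [lp.coeFn_add, Pi.add_apply, ha k n, hb k n]; ring
  smul_mem' c a ha k n := by simp only [lp.coeFn_smul, Pi.smul_apply, ha k n, smul_eq_mul]; ring

lemma cH : IsClosed (K : Set E) := by
  have c : ∀ i, Continuous fun a : E => a i := fun i => (lp.evalCLM ℂ _ 2 i).continuous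
  simp only [K, Submodule.coe_set_mk, AddSubmonoid.coe_set_mk, AddSubsemigroup.coe_set_mk,
    ofPred_forall]
  exact isClosed_iInter fun k => isClosed_iInter fun n => isClosed_eq (c _)
    (continuous_const.mul ((continuous_const.mul (c _)).sub (continuous_const.mul (c _))))

lemma BH : ∀ a ∈ K, B a ∈ K := fun a ha k n => by
  simp only [B_apply, ha k (n + 1), add_right_comm n 1]; ring

lemma noeig {a : E} (ha : a ∈ K) {c : ℂ} (e : B a = c • a) : a = 0 := by
  have p : ∀ n, 4 ^ n * a (0, n) = c ^ n * a (0, 0) := fun n => by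
    induction n with
    | zero => simp
    | succ n ih =>
      have : 4 * a (0, n + 1) = c * a (0, n) := congrArg (fun a : E => a (0, n)) e
      rw [pow_succ, mul_assoc, this, mul_left_comm, ih]; ring
  have z : a (0, 0) = 0 := by_contra fun n => key c (‖a‖ / ‖a (0, 0)‖) fun k => by
    have := lp.norm_apply_le_norm (by simp) a (k + 1, 0)
    rw [ha, zero_add, p, ← sub_mul, norm_mul, norm_mul, norm_pow] at this
    rw [div_mul_eq_mul_div, le_div_iff₀ (norm_pos_iff.2 n), ← inv_div, inv_pow, ← div_eq_mul_inv,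
      le_div_iff₀' (by positivity)]
    simpa using this
  have z' : ∀ n, a (0, n) = 0 := fun n => by simpa [z] using p n
  ext ⟨_ | k, n⟩
  · exact z' n
  · simp [ha k n, z']

noncomputable def g (x : ℝ) : ℂ := (-1) ^ ⌊x⌋

lemma g_add (x : ℝ) (m : ℕ) : g (x + m) = (-1) ^ m * g x := by
  rw [g, Int.floor_add_natCast, zpow_add₀ (by norm_num), mul_comm, zpow_natCast, g]

lemma g_norm (x : ℝ) : ‖g x‖ = 1 := by simp [g]

noncomputable def a (x : ℝ) : ℕ × ℕ → ℂ
  | (0, n) => g (x + n * φ) / 4 ^ n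
  | (k + 1, n) => (9 / 4) ^ k * ((-1) ^ fib (k + 1) *
      (g (x + n * φ - ψ ^ k) - g (x + n * φ))) / 4 ^ n

lemma a_meas (i : ℕ × ℕ) : Measurable (a · i) := by
  have : Measurable g := (measurable_from_top (f := fun n : ℤ => (-1 : ℂ) ^ n)).comp
    Int.measurable_floor
  obtain ⟨_ | k, n⟩ := i <;> simp only [a] <;> fun_prop

lemma a_per (x : ℝ) : a (x + 2) = a x := by
  have : ∀ y, g (y + 2) = g y := fun y => by simpa using g_add y 2
  ext ⟨_ | k, n⟩ <;> simp only [a, add_right_comm x 2, add_sub_right_comm _ (2 : ℝ), this]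

lemma a_sh (x : ℝ) (i : ℕ × ℕ) : a (x + φ) i = 4 * a x (i.1, i.2 + 1) := by
  have : ∀ n : ℕ, x + φ + n * φ = x + (n + 1 : ℕ) * φ := fun n => by push_cast; ring
  obtain ⟨_ | k, n⟩ := i <;> simp only [a, this] <;> field_simp <;> ring

lemma a_H (x : ℝ) (k n : ℕ) : a x (k + 1, n) = (9 / 4) ^ k *
    (4 ^ fib k * a x (0, n + fib k) - (-1) ^ fib (k + 1) * a x (0, n)) := by
  simp only [a]
  rw [show x + (n + fib k : ℕ) * φ = x + n * φ - ψ ^ k + fib (k + 1) by
    rw [← fib_succ_sub_goldenRatio_mul_fib]; push_cast; ring, g_add, pow_add]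
  field_simp

lemma bad (c t : ℝ) : volume.restrict (Ioc 0 2) {x | g (x + c - t) ≠ g (x + c)} ≤
    ENNReal.ofReal (8 * |t|) := by
  calc _ ≤ volume (⋃ j ∈ Finset.range 4, Metric.closedBall (⌊c⌋ + j - c) |t|) := ?_
    _ ≤ _ := (measure_biUnion_finset_le _ _).trans (by
      simp [Real.volume_closedBall, ← ENNReal.ofReal_ofNat, ← ENNReal.ofReal_mul, ← mul_assoc]
      norm_num)
  rw [Measure.restrict_apply' measurableSet_Ioc]
  refine measure_mono fun x ⟨h, h0, h2⟩ => ?_
  have h1 : ⌊x + c - t⌋ ≠ ⌊x + c⌋ := fun e => h (by rw [g, e, g])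
  obtain ⟨j, e⟩ := Int.eq_ofNat_of_zero_le (sub_nonneg.2 (Int.floor_mono (by linarith : c ≤ x + c)))
  have e' : (⌊x + c⌋ : ℝ) = ⌊c⌋ + j := by exact_mod_cast sub_eq_iff_eq_add'.1 e
  have := Int.floor_le (x + c)
  have := Int.lt_floor_add_one (x + c)
  have := Int.lt_floor_add_one c
  have j3 : j < 3 := by exact_mod_cast (by linarith : (j : ℝ) < 3)
  simp only [mem_iUnion, Finset.mem_range, Metric.mem_closedBall, Real.dist_eq, abs_le]
  rw [Ne, Int.floor_eq_iff, not_and_or, not_le, not_lt] at h1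
  obtain h1 | h1 := h1
  · exact ⟨j, by omega, by linarith [abs_nonneg t], by linarith [le_abs_self t]⟩
  · exact ⟨j + 1, by omega, by push_cast; linarith [neg_abs_le t], by
      push_cast; linarith [abs_nonneg t]⟩

lemma ae_mem : ∀ᵐ x ∂volume.restrict (Ioc 0 2), Memℓp (a x) 2 := by
  have sm : ∀ {r s : ℝ}, 0 ≤ r → r < 1 → 0 ≤ s → s < 1 → ∀ C : ℝ,
      Summable fun i : ℕ × ℕ => C * (r ^ i.1 * s ^ i.2) := fun r0 r1 s0 s1 C =>
    ((summable_geometric_of_lt_one r0 r1).mul_of_nonneg (summable_geometric_of_lt_one s0 s1)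
      (fun _ => by positivity) fun _ => by positivity).mul_left C
  have : ∀ i : ℕ × ℕ, volume.restrict (Ioc 0 2) {x | 4 * ((9 / 16) ^ i.1 * (1 / 2) ^ i.2) <
      ‖a x i‖} ≤ ENNReal.ofReal (9 * ((125 / 128) ^ i.1 * (4 / 5) ^ i.2)) := by
    rintro ⟨_ | k, n⟩
    · refine le_of_eq_of_le (measure_mono_null (t := ∅) (fun x h => LT.lt.not_ge
        (mem_ofPred_eq ▸ h) ?_) measure_empty) zero_le
      have : (1 / 4 : ℝ) ^ n ≤ (1 / 2) ^ n := by gcongr; norm_num
      have : (0 : ℝ) ≤ (1 / 2) ^ n := by positivity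
      simp only [a, norm_div, g_norm, norm_pow, Complex.norm_ofNat, ← one_div_pow]
      linarith
    obtain l | l := le_or_gt (2 * k) n
    · refine le_of_eq_of_le (measure_mono_null (t := ∅) (fun x h => LT.lt.not_ge
        (mem_ofPred_eq ▸ h) ?_) measure_empty) zero_le
      obtain ⟨m, rfl⟩ := Nat.exists_eq_add_of_le l
      have := norm_sub_le_of_le (g_norm (x + ↑(2 * k + m) * φ - ψ ^ k)).le
        (g_norm (x + ↑(2 * k + m) * φ)).le
      simp only [a, norm_div, norm_mul, norm_pow, Complex.norm_ofNat, norm_neg, norm_one, one_pow]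
      rw [div_le_iff₀ (by positivity), show (4 : ℝ) * ((9 / 16) ^ (k + 1) * (1 / 2) ^ (2 * k + m)) *
        4 ^ (2 * k + m) = (9 / 4) ^ k * (9 / 4 * 2 ^ m) by
        rw [mul_assoc, mul_assoc, ← mul_pow, pow_add _ (2 * k), pow_mul, pow_succ,
          show (9 / 4 : ℝ) ^ k = (9 / 16) ^ k * ((1 / 2 * 4) ^ 2) ^ k by
            rw [← mul_pow]; norm_num]
        norm_num
        ring]
      have : (1 : ℝ) ≤ 2 ^ m := one_le_pow₀ one_le_two
      exact mul_le_mul_of_nonneg_left (by linarith) (by positivity)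
    · refine (measure_mono fun x h e => ?_).trans ((bad (n * φ) (ψ ^ k)).trans
        (ENNReal.ofReal_le_ofReal ?_))
      · simp only [a, mem_ofPred_eq, e, sub_self, mul_zero, zero_div, norm_zero] at h
        exact h.not_ge (by positivity)
      · have h1 : |ψ| ≤ 5 / 8 := by
          rw [abs_of_neg goldenConj_neg]
          nlinarith [goldenConj_sq, goldenConj_neg]
        have h2 : (4 / 5 : ℝ) ^ (2 * k) ≤ (4 / 5) ^ n :=
          pow_le_pow_of_le_one (by norm_num) (by norm_num) l.le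
        have h3 : (5 / 8 : ℝ) ^ k = (125 / 128) ^ k * (4 / 5) ^ (2 * k) := by
          rw [pow_mul, ← mul_pow]; norm_num
        have h4 : |ψ| ^ k ≤ (125 / 128) ^ k * (4 / 5) ^ n :=
          ((pow_le_pow_left₀ (abs_nonneg _) h1 k).trans_eq h3).trans (by gcongr)
        rw [abs_pow, pow_succ]
        nlinarith [pow_nonneg (abs_nonneg ψ) k]
  filter_upwards [ae_finite_setOfPred_mem (ne_top_of_le_ne_top (Summable.tsum_ofReal_ne_top
    (sm (by norm_num) (by norm_num) (by norm_num) (by norm_num) 9)) (ENNReal.tsum_le_tsum this))]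
    with x hx
  refine Memℓp.of_exponent_ge (q := 1) (memℓp_gen ?_) one_le_two
  refine .of_norm_bounded_eventually (sm (r := 9 / 16) (s := 1 / 2) (by norm_num) (by norm_num)
    (by norm_num) (by norm_num) 4) (hx.subset fun i hi => ?_)
  simpa using hi

instance : TopologicalSpace.SeparableSpace E := TopologicalSpace.isSeparable_univ_iff.1 (by
  let b : HilbertBasis (ℕ × ℕ) ℂ E := default
  have := (countable_range b).isSeparable.span (R := ℂ).closure
  rwa [← Submodule.topologicalClosure_coe, b.dense_span] at this)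

noncomputable def f (x : ℝ) : E := ∑' i, lp.single 2 i (a x i)

lemma f_eq {x : ℝ} (h : Memℓp (a x) 2) : f x = ⟨a x, h⟩ :=
  (lp.hasSum_single (by simp) (⟨a x, h⟩ : E)).tsum_eq

lemma f_mem (x : ℝ) : f x ∈ K := by
  by_cases h : Summable fun i => (lp.single 2 i (a x i) : E)
  · have : ∀ j, f x j = a x j := fun j => (h.hasSum.mapL (lp.evalCLM ℂ _ 2 j)).unique
      (lp.single_apply_self (E := fun _ => ℂ) 2 j (a x j) ▸ hasSum_single
        (f := fun i => (lp.single 2 i (a x i) : E) j) j fun i n => lp.single_apply_ne _ _ _ n.symm)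
    exact fun k n => by simp only [this, a_H]
  · rw [f, tsum_eq_zero_of_not_summable h]
    exact K.zero_mem

lemma f_sh {x : ℝ} (h : Memℓp (a x) 2) : f (x + φ) = B (f x) := by
  have e : a (x + φ) = B ⟨a x, h⟩ := funext fun i => a_sh x i
  rw [f_eq h, f_eq (e ▸ lp.memℓp _)]
  exact Subtype.ext e

end Pool.Agent.H.MP_e13bdd_an
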